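import Mathlib

/-!
# The robotic arm with left-facing links: the configuration space is not simply connected

The arm has `n` links, it is pinned at the corner of the tunnel of width `m`. The cube complex
`X_{m,n}` has the reachable states as vertices and the legal moves as edges; its squares are given by
two moves which change disjoint sets of links and which may be performed in any order. Here it is
shown that for all `m ≥ 8` and `n ≥ 15` the complex `X_{m,n}` is not simply connected: some closed
edge path at the fully horizontal state cannot be transformed to the constant path by the elementary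
homotopies (removal and insertion of `u, v, u`, and `u, v, x` replaced by `u, v', x` for a square
`u, v, x, v'`). The fundamental group of a cube complex is its edge path group, and CAT(0) spaces are
contractible, so `X_{m,n}` is not CAT(0).
-/

set_option autoImplicit false

namespace Pool.Agent.Results.MP_66e1b3_co.NotSimplyConnected

/-- The unit steps up, down, right, left. -/
inductive Step | U | D | R | L
  deriving DecidableEq

/-- The vector of a step. -/
def Step.vec : Step → ℤ × ℤ
  | .U => (0, 1)
  | .D => (0, -1)
  | .R => (1, 0)
  | .L => (-1, 0)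

/-- Two steps are perpendicular. -/
def Perp (a b : Step) : Prop := a.vec.1 * b.vec.1 + a.vec.2 * b.vec.2 = 0

/-- The lattice points visited by an arm with links `w` which is pinned at `p`. -/
def verts : ℤ × ℤ → List Step → List (ℤ × ℤ)
  | p, [] => [p]
  | p, s :: w => p :: verts (p + s.vec) w

/-- `w` is a state of the arm with `n` links in the tunnel of width `m`. -/
structure IsState (m n : ℕ) (w : List Step) : Prop where
  length : w.length = n
  tunnel : ∀ p ∈ verts (0, 0) w, 0 ≤ p.1 ∧ 0 ≤ p.2 ∧ p.2 ≤ m
  nodup : (verts (0, 0) w).Nodup

/-- The moves: switching the corner between the links `i` and `i + 1` (the links have the numbers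
`0, …, n - 1`), and flipping the end to the step `s`. -/
inductive Move
  | corner (i : ℕ)
  | flip (s : Step)

namespace Move

/-- The links which are changed by a move of an arm with `n` links. -/
def links (n : ℕ) : Move → Set ℕ
  | .corner i => {i, i + 1}
  | .flip _ => {n - 1}

/-- The condition on the directions of the links under which the move is defined. -/
def Applicable : Move → List Step → Prop
  | .corner i, w => ∃ a b, w[i]? = some a ∧ w[i + 1]? = some b ∧ Perp a b
  | .flip s, w => ∃ a, w.getLast? = some a ∧ Perp a s

/-- The result of the move. -/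
def act : Move → List Step → List Step
  | .corner i, w => (w.set i (w[i + 1]?.getD .R)).set (i + 1) (w[i]?.getD .R)
  | .flip s, w => w.dropLast ++ [s]

end Move

/-- The states `u` and `v` are joined by a legal move. -/
def Edge (m n : ℕ) (u v : List Step) : Prop :=
  IsState m n u ∧ IsState m n v ∧ ∃ a : Move, a.Applicable u ∧ a.act u = v

/-- The states `u, v, x, v'` are the vertices of a square of the complex: there are moves `a` and
`b`, applicable at `u`, which change disjoint sets of links, such that performing any subset of them
in any order gives legal states, `v = a u`, `v' = b u` and `x = b a u = a b u`. -/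
def Square (m n : ℕ) (u v x v' : List Step) : Prop :=
  ∃ a b : Move, a.Applicable u ∧ b.Applicable u ∧ Disjoint (a.links n) (b.links n) ∧
    a.act u = v ∧ b.act u = v' ∧ b.act v = x ∧ a.act v' = x ∧
    IsState m n u ∧ IsState m n v ∧ IsState m n v' ∧ IsState m n x

/-- The fully horizontal state. -/
def horizontal (n : ℕ) : List Step := List.replicate n .R

/-- The closed edge paths at the fully horizontal state (all their vertices are reachable). -/
def IsLoop (m n : ℕ) (l : List (List Step)) : Prop :=
  l.IsChain (Edge m n) ∧ l.head? = some (horizontal n) ∧ l.getLast? = some (horizontal n)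

/-- The elementary homotopies of edge paths. -/
inductive Elem (m n : ℕ) : List (List Step) → List (List Step) → Prop
  | backtrack (p q : List (List Step)) (u v : List Step) (h : Edge m n u v) :
      Elem m n (p ++ u :: v :: u :: q) (p ++ u :: q)
  | square (p q : List (List Step)) (u v x v' : List Step) (h : Square m n u v x v') :
      Elem m n (p ++ u :: v :: x :: q) (p ++ u :: v' :: x :: q)

/-- The complex `X_{m,n}` (which is connected by definition) is simply connected: every closed edge
path is homotopic to the constant path. -/
def SimplyConnected (m n : ℕ) : Prop :=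
  ∀ l, IsLoop m n l → Relation.EqvGen (Elem m n) l [horizontal n]

/-! ### Computations -/

instance (a b : Step) : Decidable (Perp a b) := by unfold Perp; infer_instance

/-- The last part of the special states. -/
def suf (t : Bool) (x : Step) : List Step :=
  [.R, .U, .R, .D, .R] ++ (if t then [.U, .U, .L, .U, .L, .L] else [.U, .U, .U, .L, .L, .L]) ++
    [.D, x]

/-- The special states. -/
def W (k : ℕ) (t : Bool) (x : Step) : List Step := List.replicate k .R ++ suf t x

/-- The special edges. -/
def Cls (k : ℕ) (u v : List Step) : Prop :=
  ∃ t, (u = W k t .D ∧ v = W k t .R) ∨ (u = W k t .R ∧ v = W k t .D)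

instance (k : ℕ) (u v : List Step) : Decidable (Cls k u v) := by unfold Cls; infer_instance

/-- The cocycle. -/
def coc (k : ℕ) (u v : List Step) : ZMod 2 := if Cls k u v then 1 else 0

/-- The number of special edges of a path modulo 2. -/
def par (k : ℕ) : List (List Step) → ZMod 2
  | u :: v :: l => coc k u v + par k (v :: l)
  | _ => 0

theorem cls_comm {k : ℕ} {u v : List Step} : Cls k u v ↔ Cls k v u := by
  unfold Cls
  constructor
  · rintro ⟨t, h | h⟩
    · exact ⟨t, Or.inr ⟨h.2, h.1⟩⟩
    · exact ⟨t, Or.inl ⟨h.2, h.1⟩⟩
  · rintro ⟨t, h | h⟩
    · exact ⟨t, Or.inr ⟨h.2, h.1⟩⟩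
    · exact ⟨t, Or.inl ⟨h.2, h.1⟩⟩

theorem coc_comm (k : ℕ) (u v : List Step) : coc k u v = coc k v u := by
  unfold coc
  simp only [cls_comm (k := k) (u := u) (v := v)]

theorem par_append (k : ℕ) (p q : List (List Step)) (u : List Step) :
    par k (p ++ u :: q) = par k (p ++ [u]) + par k (u :: q) := by
  induction p with
  | nil => simp [par]
  | cons a p ih =>
    cases p with
    | nil => simp [par]
    | cons b p =>
      simp only [List.cons_append, par] at ih ⊢
      rw [ih, add_assoc]

/-- The moves of the loop. -/
def loopMoves : List Move := [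
    .flip .U, .corner 13, .corner 12, .corner 11, .corner 10, .corner 9, .corner 8, .corner 7,
    .corner 6, .corner 5, .corner 4, .corner 3, .flip .D, .corner 13, .corner 12, .corner 11,
    .corner 10, .corner 9, .corner 8, .corner 7, .corner 6, .corner 5, .flip .U, .corner 13,
    .corner 12, .corner 11, .corner 10, .corner 9, .corner 8, .corner 7, .flip .U, .corner 13,
    .corner 12, .corner 11, .corner 10, .corner 9, .corner 8, .flip .U, .corner 13, .corner 12,
    .corner 11, .corner 10, .corner 9, .flip .U, .corner 13, .corner 12, .corner 11, .corner 10,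
    .flip .U, .corner 13, .corner 12, .corner 11, .flip .U, .corner 13, .corner 12, .flip .U,
    .corner 13, .flip .U, .flip .L, .corner 13, .corner 12, .corner 11, .corner 10, .flip .L,
    .corner 13, .corner 12, .corner 11, .flip .L, .corner 13, .corner 12, .flip .L, .corner 13,
    .flip .L, .flip .D, .corner 13, .flip .D, .flip .R, .corner 2, .corner 1, .corner 0,
    .corner 4, .corner 3, .corner 2, .flip .D, .flip .L, .corner 2, .corner 0, .corner 3,
    .corner 1, .corner 4, .corner 2, .corner 13, .flip .L, .flip .U, .corner 13, .corner 12,
    .corner 11, .corner 10, .flip .U, .corner 13, .corner 12, .corner 11, .flip .U, .corner 13,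
    .corner 12, .flip .U, .corner 13, .flip .U, .flip .R, .corner 13, .corner 12, .corner 11,
    .corner 10, .corner 9, .corner 8, .corner 7, .corner 5, .corner 3, .flip .R, .corner 13,
    .corner 12, .corner 11, .corner 10, .corner 9, .corner 8, .corner 6, .corner 4, .flip .R,
    .corner 13, .corner 12, .corner 11, .corner 10, .corner 9, .corner 7, .corner 5, .flip .R,
    .corner 13, .corner 12, .corner 11, .corner 10, .corner 8, .corner 6, .flip .R, .corner 13,
    .corner 12, .corner 11, .corner 9, .corner 7, .flip .R, .corner 13, .corner 12, .corner 10,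
    .corner 8, .flip .R, .corner 13, .corner 11, .corner 9, .flip .R, .corner 12, .corner 10,
    .corner 13, .corner 11, .flip .R, .corner 12, .corner 13, .flip .R]

/-! ### Translations and horizontal beginnings -/

theorem verts_add (q : ℤ × ℤ) (w : List Step) :
    ∀ p, verts (p + q) w = (verts p w).map (· + q) := by
  induction w with
  | nil => intro p; simp [verts]
  | cons s w ih =>
    intro p
    simp only [verts, List.map_cons]
    rw [← ih, add_right_comm]

theorem verts_rep (s : List Step) (k : ℕ) : ∀ p : ℤ × ℤ, verts p (List.replicate k .R ++ s) =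
    (List.range k).map (fun i : ℕ => p + ((i : ℤ), 0)) ++ verts (p + ((k : ℤ), 0)) s := by
  induction k with
  | zero =>
    intro p
    have h : p + (((0 : ℕ) : ℤ), (0 : ℤ)) = p := by ext <;> simp
    rw [h]
    simp
  | succ k ih =>
    intro p
    rw [List.replicate_succ, List.cons_append, verts, ih, List.range_succ_eq_map, List.map_cons,
      List.map_map, List.cons_append]
    congr 1
    · simp
    · congr 1
      · apply List.map_congr_left
        intro i _
        simp only [Function.comp, Step.vec, add_assoc]
        congr 1
        push_cast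
        ext
        · simp [add_comm]
        · simp
      · congr 1
        simp only [Step.vec, add_assoc]
        congr 1
        push_cast
        ext
        · simp [add_comm]
        · simp

theorem nodup_suffix {k : ℕ} {s : List Step}
    (h : (verts (0, 0) (List.replicate k .R ++ s)).Nodup) : (verts (0, 0) s).Nodup := by
  rw [verts_rep] at h
  have h1 := (List.nodup_append.1 h).2.1
  rw [verts_add] at h1
  exact h1.of_map _

theorem IsState.lift {m j n : ℕ} {s : List Step} (hm : 8 ≤ m) (h : IsState 8 n s) :
    IsState m (j + n) (List.replicate j .R ++ s) := by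
  have hv : verts ((0, 0) + ((j : ℤ), 0)) s = (verts (0, 0) s).map (· + ((j : ℤ), 0)) :=
    verts_add _ _ _
  refine ⟨by simp [h.length], ?_, ?_⟩
  · intro p hp
    rw [verts_rep, hv, List.mem_append, List.mem_map, List.mem_map] at hp
    rcases hp with ⟨i, _, rfl⟩ | ⟨q, hq, rfl⟩
    · simp
    · obtain ⟨h1, h2, h3⟩ := h.tunnel q hq
      have : (8 : ℤ) ≤ m := by exact_mod_cast hm
      simp only [Prod.fst_add, Prod.snd_add, add_zero]
      refine ⟨by positivity, h2, h3.trans ?_⟩
      exact_mod_cast hm
  · rw [verts_rep, hv, List.nodup_append]
    refine ⟨?_, h.nodup.map (add_left_injective _), ?_⟩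
    · refine List.nodup_range.map fun a b hab => ?_
      have := congrArg Prod.fst hab
      simpa using this
    · rintro a ha b hb rfl
      rw [List.mem_map] at ha hb
      obtain ⟨i, hi, rfl⟩ := ha
      obtain ⟨q, hq, hq2⟩ := hb
      have h1 := (h.tunnel q hq).1
      have h2 := congrArg Prod.fst hq2
      simp only [Prod.fst_add, zero_add] at h2
      have h3 : (i : ℤ) < j := by exact_mod_cast List.mem_range.1 hi
      omega

/-- The same move on the last part of the arm. -/
def Move.shift (k : ℕ) : Move → Move
  | .corner i => .corner (k + i)
  | .flip s => .flip s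

theorem getElem?_rep (k j : ℕ) (s : List Step) : (List.replicate k .R ++ s)[k + j]? = s[j]? := by
  rw [List.getElem?_append_right (by simp)]
  simp

theorem act_shift (k : ℕ) (a : Move) (s : List Step) (hs : s ≠ []) :
    (a.shift k).act (List.replicate k .R ++ s) = List.replicate k .R ++ a.act s := by
  cases a with
  | corner i =>
    simp only [Move.shift, Move.act]
    rw [add_assoc, getElem?_rep, getElem?_rep, List.set_append_right _ _ (by simp),
      List.set_append_right _ _ (by simp)]
    simp
  | flip t =>
    simp only [Move.shift, Move.act]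
    rw [List.dropLast_append_of_ne_nil hs, List.append_assoc]

theorem applicable_shift (k : ℕ) (a : Move) (s : List Step) (hs : s ≠ []) :
    (a.shift k).Applicable (List.replicate k .R ++ s) ↔ a.Applicable s := by
  cases a with
  | corner i =>
    simp only [Move.shift, Move.Applicable]
    rw [add_assoc, getElem?_rep, getElem?_rep]
  | flip t =>
    simp only [Move.shift, Move.Applicable]
    rw [List.getLast?_append_of_ne_nil _ hs]

/-! ### The cocycle -/

instance : Fintype Step := ⟨{.U, .D, .R, .L}, fun x => by cases x <;> decide⟩

instance (a : Move) (w : List Step) : Decidable (a.Applicable w) := by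
  cases a <;> unfold Move.Applicable <;> infer_instance

/-- The finite check: a corner of a special state, not involving the last link, which can be
switched for both directions of the last link leads to the other special state. -/
def Chk (j : ℕ) (t : Bool) : Prop :=
    ((Move.corner j).Applicable (suf t .D) ∨ (Move.corner j).Applicable (suf t .R)) ∧
    (verts (0, 0) ((Move.corner j).act (suf t .D))).Nodup ∧
    (verts (0, 0) ((Move.corner j).act (suf t .R))).Nodup →
    (Move.corner j).act (suf t .D) = suf (!t) .D ∧
      (Move.corner j).act (suf t .R) = suf (!t) .R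

instance (j : ℕ) (t : Bool) : Decidable (Chk j t) := by unfold Chk; infer_instance

theorem chk_all : ∀ j < 11, ∀ t : Bool, Chk j t := by decide +kernel

theorem length_suf (t : Bool) (x : Step) : (suf t x).length = 13 := by
  cases t <;> rfl

theorem suf_ne (t : Bool) (x : Step) : suf t x ≠ [] := by
  cases t <;> simp [suf]

theorem getLast_W (k : ℕ) (t : Bool) (x : Step) : (W k t x).getLast? = some x := by
  unfold W
  rw [List.getLast?_append_of_ne_nil _ (suf_ne t x)]
  cases t <;> rfl

theorem W_get_11 (k : ℕ) (t : Bool) (x : Step) : (W k t x)[k + 11]? = some .D := by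
  unfold W
  rw [getElem?_rep]
  cases t <;> rfl

theorem W_get_12 (k : ℕ) (t : Bool) (x : Step) : (W k t x)[k + 12]? = some x := by
  unfold W
  rw [getElem?_rep]
  cases t <;> rfl

theorem length_W (k : ℕ) (t : Bool) (x : Step) : (W k t x).length = k + 13 := by
  simp [W, length_suf]

/-- Away from the two links of the corner nothing changes. -/
theorem corner_get {i l : ℕ} (w : List Step) (h : l ≠ i) (h' : l ≠ i + 1) :
    ((Move.corner i).act w)[l]? = w[l]? := by
  simp only [Move.act]
  rw [List.getElem?_set_ne (Ne.symm h'), List.getElem?_set_ne (Ne.symm h)]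

theorem corner_get_left {i : ℕ} {w : List Step} {a b : Step} (ha : w[i]? = some a)
    (hb : w[i + 1]? = some b) : ((Move.corner i).act w)[i]? = some b := by
  simp only [Move.act]
  have hi := (List.getElem?_eq_some_iff.1 ha).1
  rw [List.getElem?_set_ne (by omega), List.getElem?_set_self hi, hb]
  rfl

theorem corner_get_right {i : ℕ} {w : List Step} {a b : Step} (ha : w[i]? = some a)
    (hb : w[i + 1]? = some b) : ((Move.corner i).act w)[i + 1]? = some a := by
  simp only [Move.act]
  have hi := (List.getElem?_eq_some_iff.1 hb).1
  rw [List.getElem?_set_self (by simpa using hi), ha]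
  rfl

/-- A special edge is not given by a corner. -/
theorem corner_not_special {k i : ℕ} {t : Bool} {x y : Step} (hxy : x ≠ y) (hy : x ≠ .D ∨ y ≠ .D)
    (ha : (Move.corner i).Applicable (W k t x)) (h : (Move.corner i).act (W k t x) = W k t y) :
    False := by
  obtain ⟨a, b, h1, h2, h3⟩ := ha
  have hlen : i + 1 < k + 13 := by
    have := (List.getElem?_eq_some_iff.1 h2).1
    rwa [length_W] at this
  by_cases h4 : i + 1 = k + 12
  · have h5 : i = k + 11 := by omega
    subst h5
    have e1 := corner_get_left h1 h2
    have e2 := corner_get_right h1 h2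
    rw [h, W_get_11] at e1
    rw [h, show k + 11 + 1 = k + 12 from rfl, W_get_12] at e2
    rw [W_get_11] at h1
    rw [show k + 11 + 1 = k + 12 from rfl, W_get_12] at h2
    simp only [Option.some.injEq] at e1 e2 h1 h2
    subst h1 h2
    subst e1
    exact hxy e2.symm
  · have e : ((Move.corner i).act (W k t x))[k + 12]? = (W k t x)[k + 12]? :=
      corner_get _ (by omega) (by omega)
    rw [h, W_get_12, W_get_12] at e
    simp only [Option.some.injEq] at e
    exact hxy e.symm

/-- The main step. -/
theorem special_square {k m : ℕ} {t : Bool} {x y : Step} (hxy : (x = .D ∧ y = .R) ∨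
    (x = .R ∧ y = .D)) {a b : Move} {v' z : List Step}
    (ha : a.Applicable (W k t x)) (hb : b.Applicable (W k t x))
    (hd : Disjoint (a.links (k + 13)) (b.links (k + 13)))
    (h1 : a.act (W k t x) = W k t y) (h2 : b.act (W k t x) = v') (h3 : b.act (W k t y) = z)
    (hv : IsState m (k + 13) v') (hz : IsState m (k + 13) z) :
    v' = W k (!t) x ∧ z = W k (!t) y := by
  cases a with
  | corner i =>
    exfalso
    refine corner_not_special (x := x) (y := y) ?_ ?_ ha h1
    · rcases hxy with ⟨rfl, rfl⟩ | ⟨rfl, rfl⟩ <;> decide
    · rcases hxy with ⟨rfl, rfl⟩ | ⟨rfl, rfl⟩ <;> decide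
  | flip s =>
    cases b with
    | flip s' =>
      exfalso
      simp [Move.links] at hd
    | corner i =>
      obtain ⟨c, d, e1, e2, e3⟩ := hb
      have hlen : i + 1 < k + 13 := by
        have := (List.getElem?_eq_some_iff.1 e2).1
        rwa [length_W] at this
      have hi : i + 1 ≠ k + 12 := by
        rintro h
        rw [Move.links, Move.links, h, Set.disjoint_left] at hd
        exact hd (show k + 12 ∈ ({k + 13 - 1} : Set ℕ) by simp) (by simp)
      by_cases hik : i < k
      · exfalso
        have f1 : (W k t x)[i]? = some .R := by
          unfold W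
          rw [List.getElem?_append_left (by simpa using hik)]
          simp [hik]
        have f2 : (W k t x)[i + 1]? = some .R := by
          by_cases hik' : i + 1 < k
          · unfold W
            rw [List.getElem?_append_left (by simpa using hik')]
            simp [hik']
          · have : i + 1 = k + 0 := by omega
            rw [this, W, getElem?_rep]
            cases t <;> rfl
        rw [f1] at e1
        rw [f2] at e2
        simp only [Option.some.injEq] at e1 e2
        subst e1 e2
        revert e3
        decide
      · obtain ⟨j, rfl⟩ : ∃ j, i = k + j := ⟨i - k, by omega⟩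
        have hj : j < 11 := by omega
        have hsh : ∀ z, (Move.corner (k + j)).act (W k t z) =
            List.replicate k .R ++ (Move.corner j).act (suf t z) := fun z =>
          act_shift k (.corner j) (suf t z) (suf_ne t z)
        have happ : (Move.corner j).Applicable (suf t x) := by
          rw [← applicable_shift k (.corner j) (suf t x) (suf_ne t x)]
          exact ⟨c, d, e1, e2, e3⟩
        rw [hsh] at h2 h3
        subst h2 h3
        have n1 := nodup_suffix hv.nodup
        have n2 := nodup_suffix hz.nodup
        have hc := chk_all j hj t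
        rcases hxy with ⟨rfl, rfl⟩ | ⟨rfl, rfl⟩
        · obtain ⟨g1, g2⟩ := hc ⟨Or.inl happ, n1, n2⟩
          rw [g1, g2]
          exact ⟨rfl, rfl⟩
        · obtain ⟨g1, g2⟩ := hc ⟨Or.inr happ, n2, n1⟩
          rw [g1, g2]
          exact ⟨rfl, rfl⟩

theorem cls_of_square {k m : ℕ} {u v x v' : List Step} (h : Square m (k + 13) u v x v')
    (hc : Cls k u v) : Cls k v' x := by
  obtain ⟨a, b, ha, hb, hd, h1, h2, h3, h4, -, -, hv, hx⟩ := h
  obtain ⟨t, ⟨rfl, rfl⟩ | ⟨rfl, rfl⟩⟩ := hc
  · obtain ⟨g1, g2⟩ := special_square (Or.inl ⟨rfl, rfl⟩) ha hb hd h1 h2 h3 hv hx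
    exact ⟨!t, Or.inl ⟨g1, g2⟩⟩
  · obtain ⟨g1, g2⟩ := special_square (Or.inr ⟨rfl, rfl⟩) ha hb hd h1 h2 h3 hv hx
    exact ⟨!t, Or.inr ⟨g1, g2⟩⟩

/-- The inverse move. -/
def Move.inv (w : List Step) : Move → Move
  | .corner i => .corner i
  | .flip _ => .flip (w.getLast?.getD .R)

theorem perp_comm {a b : Step} (h : Perp a b) : Perp b a := by
  unfold Perp at h ⊢
  linarith [mul_comm a.vec.1 b.vec.1, mul_comm a.vec.2 b.vec.2]

theorem inv_links (n : ℕ) (a : Move) (w : List Step) : (a.inv w).links n = a.links n := by
  cases a <;> rfl

theorem inv_applicable {a : Move} {w : List Step} (h : a.Applicable w) :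
    (a.inv w).Applicable (a.act w) := by
  cases a with
  | corner i =>
    obtain ⟨c, d, h1, h2, h3⟩ := h
    exact ⟨d, c, corner_get_left h1 h2, corner_get_right h1 h2, perp_comm h3⟩
  | flip s =>
    obtain ⟨c, h1, h2⟩ := h
    refine ⟨s, by simp [Move.act], ?_⟩
    rw [h1]
    exact perp_comm h2

theorem inv_act {a : Move} {w : List Step} (h : a.Applicable w) :
    (a.inv w).act (a.act w) = w := by
  cases a with
  | corner i =>
    obtain ⟨c, d, h1, h2, h3⟩ := h
    apply List.ext_getElem?
    intro l
    have e1 := corner_get_left h1 h2
    have e2 := corner_get_right h1 h2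
    by_cases hl : l = i
    · subst hl
      exact (corner_get_left e1 e2).trans h1.symm
    · by_cases hl' : l = i + 1
      · subst hl'
        exact (corner_get_right e1 e2).trans h2.symm
      · exact (corner_get _ hl hl').trans (corner_get _ hl hl')
  | flip s =>
    obtain ⟨c, h1, h2⟩ := h
    simp only [Move.inv, Move.act, h1, Option.getD_some, List.dropLast_concat]
    exact List.dropLast_append_getLast? c h1

theorem square_symm {m n : ℕ} {u v x v' : List Step} (h : Square m n u v x v') :
    Square m n u v' x v := by
  obtain ⟨a, b, ha, hb, hd, h1, h2, h3, h4, s1, s2, s3, s4⟩ := h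
  exact ⟨b, a, hb, ha, hd.symm, h2, h1, h4, h3, s1, s3, s2, s4⟩

theorem corner_getLast {m n i : ℕ} {u : List Step} (hu : IsState m n u)
    (ha : (Move.corner i).Applicable u) (hi : i + 1 ≠ n - 1) :
    ((Move.corner i).act u).getLast? = u.getLast? := by
  obtain ⟨c, d, e1, e2, e3⟩ := ha
  have hlen : i + 1 < n := by
    have := (List.getElem?_eq_some_iff.1 e2).1
    rwa [hu.length] at this
  have hl : ((Move.corner i).act u).length = n := by simp [Move.act, hu.length]
  rw [List.getLast?_eq_getElem?, List.getLast?_eq_getElem?, hl, hu.length]
  exact corner_get _ (by omega) (by omega)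

theorem disjoint_corner_flip {n i : ℕ} {s : Step}
    (hd : Disjoint ((Move.corner i).links n) ((Move.flip s).links n)) :
    i ≠ n - 1 ∧ i + 1 ≠ n - 1 := by
  rw [Move.links, Move.links, Set.disjoint_left] at hd
  constructor
  · rintro h
    exact hd (show i ∈ ({i, i + 1} : Set ℕ) by simp) (by simp [h])
  · rintro h
    exact hd (show i + 1 ∈ ({i, i + 1} : Set ℕ) by simp) (by simp [h])

/-- A move which changes other links does not influence the inverse of a move. -/
theorem inv_eq {m n : ℕ} {u : List Step} {a b : Move} (hu : IsState m n u)
    (ha : a.Applicable u) (hd : Disjoint (a.links n) (b.links n)) :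
    b.inv u = b.inv (a.act u) := by
  cases b with
  | corner i => rfl
  | flip s =>
    cases a with
    | flip s' =>
      exfalso
      simp [Move.links] at hd
    | corner i =>
      simp only [Move.inv]
      rw [corner_getLast hu ha (disjoint_corner_flip hd).2]

theorem flip_get {m n l : ℕ} {u : List Step} {s : Step} (hu : IsState m n u) (hl : l < n - 1) :
    ((Move.flip s).act u)[l]? = u[l]? := by
  simp only [Move.act]
  rw [List.getElem?_append_left (by simp [hu.length, hl]), List.getElem?_dropLast]
  simp [hu.length, hl]

theorem applicable_of_disjoint {m n : ℕ} {u : List Step} {a b : Move} (hu : IsState m n u)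
    (ha : a.Applicable u) (hb : b.Applicable u) (hd : Disjoint (a.links n) (b.links n)) :
    a.Applicable (b.act u) := by
  cases a with
  | corner i =>
    obtain ⟨c, d, e1, e2, e3⟩ := ha
    have hlen : i + 1 < n := by
      have := (List.getElem?_eq_some_iff.1 e2).1
      rwa [hu.length] at this
    cases b with
    | corner j =>
      have h1 : i ≠ j ∧ i ≠ j + 1 ∧ i + 1 ≠ j + 1 ∧ i + 1 ≠ j := by
        rw [Move.links, Move.links, Set.disjoint_left] at hd
        have f1 := hd (show i ∈ ({i, i + 1} : Set ℕ) by simp)
        have f2 := hd (show i + 1 ∈ ({i, i + 1} : Set ℕ) by simp)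
        simp only [Set.mem_insert_iff, Set.mem_singleton_iff, not_or] at f1 f2
        exact ⟨f1.1, f1.2, f2.2, f2.1⟩
      exact ⟨c, d, (corner_get _ h1.1 h1.2.1).trans e1, (corner_get _ h1.2.2.2 h1.2.2.1).trans e2,
        e3⟩
    | flip s =>
      have h1 := disjoint_corner_flip hd
      exact ⟨c, d, (flip_get hu (by omega)).trans e1, (flip_get hu (by omega)).trans e2, e3⟩
  | flip s =>
    obtain ⟨c, e1, e2⟩ := ha
    cases b with
    | flip s' =>
      exfalso
      simp [Move.links] at hd
    | corner i =>
      exact ⟨c, (corner_getLast hu hb (disjoint_corner_flip hd.symm).2).trans e1, e2⟩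

theorem square_rot {m n : ℕ} {u v x v' : List Step} (h : Square m n u v x v') :
    Square m n v' x v u := by
  obtain ⟨a, b, ha, hb, hd, h1, h2, h3, h4, s1, s2, s3, s4⟩ := h
  subst h1 h2
  refine ⟨a, b.inv u, applicable_of_disjoint s1 ha hb hd, inv_applicable hb, ?_, h4, inv_act hb,
    ?_, rfl, s3, s4, s1, s2⟩
  · rwa [inv_links]
  · rw [inv_eq s1 ha hd, ← h3]
    exact inv_act (applicable_of_disjoint s1 hb ha hd.symm)

theorem coc_square {k m : ℕ} {u v x v' : List Step} (h : Square m (k + 13) u v x v') :
    coc k u v = coc k v' x := by
  have h1 : Cls k u v ↔ Cls k v' x := by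
    refine ⟨cls_of_square h, fun hc => ?_⟩
    exact cls_of_square (square_rot h) hc
  unfold coc
  simp only [h1]

/-- Elementary homotopies preserve the parity. -/
theorem par_elem {k m : ℕ} {l l' : List (List Step)} (h : Elem m (k + 13) l l') :
    par k l = par k l' := by
  cases h with
  | backtrack p q u v h =>
    rw [par_append, par_append k p q u]
    simp only [par]
    rw [coc_comm k v u, ← add_assoc (coc k u v), CharTwo.add_self_eq_zero, zero_add]
  | square p q u v x v' h =>
    rw [par_append k p (v :: x :: q) u, par_append k p (v' :: x :: q) u]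
    simp only [par]
    rw [coc_square h, ← coc_square (square_symm h)]
    ring

theorem par_eqvGen {k m : ℕ} {l l' : List (List Step)}
    (h : Relation.EqvGen (Elem m (k + 13)) l l') : par k l = par k l' := by
  induction h with
  | rel x y h => exact par_elem h
  | refl x => rfl
  | symm x y _ ih => exact ih.symm
  | trans x y z _ _ ih1 ih2 => exact ih1.trans ih2

/-! ### The loop -/

/-- The path given by a sequence of moves. -/
def path : List Step → List Move → List (List Step)
  | u, [] => [u]
  | u, a :: l => u :: path (a.act u) l

/-- All moves of the sequence are legal. -/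
def Legal (m n : ℕ) : List Step → List Move → Prop
  | u, [] => IsState m n u
  | u, a :: l => IsState m n u ∧ a.Applicable u ∧ Legal m n (a.act u) l

instance (m n : ℕ) (w : List Step) : Decidable (IsState m n w) :=
  decidable_of_iff (w.length = n ∧ (∀ p ∈ verts (0, 0) w, 0 ≤ p.1 ∧ 0 ≤ p.2 ∧ p.2 ≤ (m : ℤ)) ∧
    (verts (0, 0) w).Nodup) ⟨fun h => ⟨h.1, h.2.1, h.2.2⟩, fun h => ⟨h.1, h.2, h.3⟩⟩

instance decLegal (m n : ℕ) : ∀ (u : List Step) (l : List Move), Decidable (Legal m n u l)
  | u, [] => inferInstanceAs (Decidable (IsState m n u))
  | u, a :: l =>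
    haveI := decLegal m n (a.act u) l
    inferInstanceAs (Decidable (IsState m n u ∧ a.Applicable u ∧ Legal m n (a.act u) l))

theorem legal_loop : Legal 8 15 (horizontal 15) loopMoves := by decide +kernel

theorem par_loop : par 2 (path (horizontal 15) loopMoves) = 1 := by decide +kernel

theorem last_loop : (path (horizontal 15) loopMoves).getLast? = some (horizontal 15) := by
  decide +kernel

theorem path_head (u : List Step) (l : List Move) : (path u l).head? = some u := by
  cases l <;> simp [path]

theorem Legal.start {m n : ℕ} {u : List Step} {l : List Move} (h : Legal m n u l) :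
    IsState m n u := by
  cases l with
  | nil => exact h
  | cons a l => exact h.1

/-- The lifted path consists of edges. -/
theorem chain_lift {m n j : ℕ} (hm : 8 ≤ m) (hn : 0 < n) : ∀ {u : List Step} {l : List Move},
    Legal 8 n u l → ((path u l).map (List.replicate j .R ++ ·)).IsChain (Edge m (j + n)) := by
  intro u l
  induction l generalizing u with
  | nil => intro _; simp [path]
  | cons a l ih =>
    intro h
    have hu : u ≠ [] := by
      intro h0
      have := h.1.length
      rw [h0] at this
      simp at this
      omega
    have h2 := ih h.2.2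
    have h3 : (path (a.act u) l).head? = some (a.act u) := path_head _ _
    rw [path, List.map_cons, List.isChain_cons]
    refine ⟨?_, h2⟩
    intro y hy
    rw [List.head?_map, h3] at hy
    simp only [Option.map_some, Option.mem_def, Option.some.injEq] at hy
    subst hy
    refine ⟨h.1.lift hm, h.2.2.start.lift hm, a.shift j, ?_, act_shift j a u hu⟩
    rw [applicable_shift j a u hu]
    exact h.2.1

theorem cls_lift (j : ℕ) (u v : List Step) :
    Cls (j + 2) (List.replicate j .R ++ u) (List.replicate j .R ++ v) ↔ Cls 2 u v := by
  have h : ∀ (t : Bool) (x : Step), W (j + 2) t x = List.replicate j .R ++ W 2 t x := by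
    intro t x
    rw [W, W, List.replicate_add, List.append_assoc]
  unfold Cls
  simp only [h, List.append_cancel_left_eq]

theorem par_lift (j : ℕ) (l : List (List Step)) :
    par (j + 2) (l.map (List.replicate j .R ++ ·)) = par 2 l := by
  induction l with
  | nil => simp [par]
  | cons u l ih =>
    cases l with
    | nil => simp [par]
    | cons v l =>
      simp only [List.map_cons, par] at ih ⊢
      rw [ih]
      simp only [coc, cls_lift]

/-- **The configuration space `X_{m,n}` of the robotic arm is not simply connected, for all
`m ≥ 8` and `n ≥ 15`.** In particular it is not CAT(0). -/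
theorem result (m n : ℕ) (hm : 8 ≤ m) (hn : 15 ≤ n) : ¬ SimplyConnected m n := by
  obtain ⟨j, rfl⟩ : ∃ j, n = j + 15 := ⟨n - 15, by omega⟩
  intro h
  have hh : horizontal (j + 15) = List.replicate j .R ++ horizontal 15 := List.replicate_add ..
  have h1 : IsLoop m (j + 15)
      ((path (horizontal 15) loopMoves).map (List.replicate j .R ++ ·)) := by
    refine ⟨chain_lift hm (by norm_num) legal_loop, ?_, ?_⟩
    · rw [List.head?_map, path_head, Option.map_some, hh]
    · rw [List.getLast?_map, last_loop, Option.map_some, hh]
  have h2 := par_eqvGen (k := j + 2) (h _ h1)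
  rw [par_lift, par_loop] at h2
  exact one_ne_zero h2

end Pool.Agent.Results.MP_66e1b3_co.NotSimplyConnected
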